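import Pool.Agent.Lib_MP_a29272_n.MainN

/-!
# Simple Riemannian manifolds without strictly convex functions

In every dimension `n ≥ 3`, arbitrarily close (in the `C⁰` sense) to the flat unit ball of `ℝⁿ`,
there are smooth Riemannian metrics on closed balls of `ℝⁿ` which are simple (and nontrapping) and
which carry no strictly convex function.
-/

namespace Pool.Agent.Results.MP_a29272_gt.EveryDimension

open Set Metric
open scoped ContDiff RealInnerProductSpace

section Definitions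

variable {E : Type} [NormedAddCommGroup E] [InnerProductSpace ℝ E]

/-- `g` is a smooth Riemannian metric on the closed ball `M` of radius `R` of `E`: a smooth field
of symmetric bilinear forms on `E`, positive definite at every point of `M`. -/
def IsRiemannianMetric (R : ℝ) (g : E → E →L[ℝ] E →L[ℝ] ℝ) : Prop :=
  ContDiff ℝ ∞ g ∧ (∀ x v w, g x v w = g x w v) ∧
    ∀ x ∈ closedBall (0 : E) R, ∀ v, v ≠ 0 → 0 < g x v v

/-- The Christoffel symbols `Γ_x(v, w)` of the Levi-Civita connection of `g`: the vector with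
`g_x(Γ_x(v, w), z) = (1/2) (∂_v g (w, z) + ∂_w g (v, z) - ∂_z g (v, w))` for all `z`. -/
noncomputable def christoffel (g : E → E →L[ℝ] E →L[ℝ] ℝ) (x v w : E) : E :=
  (g x).inverse ((1 / 2 : ℝ) •
    (fderiv ℝ g x v w + fderiv ℝ g x w v - ((fderiv ℝ g x).flip v).flip w))

/-- The covariant Hessian `∇²f_x(v, w) = D²f_x(v, w) - Df_x(Γ_x(v, w))`. -/
noncomputable def hessian (g : E → E →L[ℝ] E →L[ℝ] ℝ) (f : E → ℝ) (x v w : E) : ℝ :=
  fderiv ℝ (fderiv ℝ f) x v w - fderiv ℝ f x (christoffel g x v w)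

/-- `γ` is a geodesic of `g` on the time set `s`, with velocity `γ'`:
`γ'' + Γ_γ(γ', γ') = 0`. -/
def IsGeodesicOn (g : E → E →L[ℝ] E →L[ℝ] ℝ) (γ γ' : ℝ → E) (s : Set ℝ) : Prop :=
  ∀ t ∈ s, HasDerivWithinAt γ (γ' t) s t ∧
    HasDerivWithinAt γ' (-(christoffel g (γ t) (γ' t) (γ' t))) s t

/-- The boundary of `M` (the sphere of radius `R`) is strictly convex for `g`: the second
fundamental form with respect to the inward normal is positive definite.  That is, for every smooth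
curve `c` in the sphere with `c'(0) ≠ 0` and every inward `g`-normal vector `ν` at `c(0)`, the
covariant acceleration `c'' + Γ(c', c')` of `c` at time `0` has positive `g`-inner product
with `ν`. -/
def StrictlyConvexBoundary (R : ℝ) (g : E → E →L[ℝ] E →L[ℝ] ℝ) : Prop :=
  ∀ c : ℝ → E, ContDiff ℝ ∞ c → (∀ t, ‖c t‖ = R) → deriv c 0 ≠ 0 →
    ∀ ν : E, (∀ w, ⟪c 0, w⟫ = 0 → g (c 0) ν w = 0) → ⟪c 0, ν⟫ < 0 →
      0 < g (c 0) ν (deriv (deriv c) 0 + christoffel g (c 0) (deriv c 0) (deriv c 0))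

/-- `γ : [0, 1] → M` is a geodesic of `(M, g)` with `γ(0) = x` and `γ'(0) = v`, so that
`γ(1) = exp_x(v)`. -/
def IsGeodesicFrom (R : ℝ) (g : E → E →L[ℝ] E →L[ℝ] ℝ) (x v : E) (γ : ℝ → E) : Prop :=
  ∃ γ' : ℝ → E, IsGeodesicOn g γ γ' (Icc 0 1) ∧ γ 0 = x ∧ γ' 0 = v ∧
    ∀ t ∈ Icc (0 : ℝ) 1, γ t ∈ closedBall (0 : E) R

/-- The maximal domain of definition of `exp_x` in `T_x M`. -/
def expDomain (R : ℝ) (g : E → E →L[ℝ] E →L[ℝ] ℝ) (x : E) : Set E :=
  {v | ∃ γ, IsGeodesicFrom R g x v γ}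

/-- `(M, g)` is simple: its boundary is strictly convex and, for every `x ∈ M`, the exponential
map `exp_x` is a diffeomorphism from its maximal domain of definition onto `M`. In detail, there is
a `C^∞` diffeomorphism `Φ` between open sets of `E`, the first of which contains the maximal domain
of definition, which agrees with `exp_x` there and maps this domain onto `M`. -/
def IsSimple (R : ℝ) (g : E → E →L[ℝ] E →L[ℝ] ℝ) : Prop :=
  StrictlyConvexBoundary R g ∧ ∀ x ∈ closedBall (0 : E) R, ∃ Φ : OpenPartialHomeomorph E E,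
    ContDiffOn ℝ ∞ Φ Φ.source ∧ ContDiffOn ℝ ∞ Φ.symm Φ.target ∧
    expDomain R g x ⊆ Φ.source ∧ (∀ v γ, IsGeodesicFrom R g x v γ → Φ v = γ 1) ∧
    Φ '' expDomain R g x = closedBall (0 : E) R

/-- `(M, g)` is nontrapping: its boundary is strictly convex and there is a finite bound `T` on the
length of all unit-speed geodesics `γ : [0, τ] → M`. In particular no unit-speed geodesic stays in
`M` for infinite time. -/
def Nontrapping (R : ℝ) (g : E → E →L[ℝ] E →L[ℝ] ℝ) : Prop :=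
  StrictlyConvexBoundary R g ∧
    ∃ T : ℝ, ∀ (τ : ℝ) (γ γ' : ℝ → E), IsGeodesicOn g γ γ' (Icc 0 τ) →
      (∀ t ∈ Icc 0 τ, γ t ∈ closedBall (0 : E) R) →
        (∀ t ∈ Icc 0 τ, g (γ t) (γ' t) (γ' t) = 1) → τ ≤ T

end Definitions

/-- **Main theorem.** Let `n ≥ 3`. For every `ε > 0` there are a radius `R ∈ (1, 1 + ε)` and a
smooth Riemannian metric `g` on the closed ball `M` of radius `R` of `ℝⁿ`, with
`|g_x(v, v) - |v|²| ≤ ε |v|²`, such that `(M, g)` is simple (and nontrapping), and for every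
function `f` that is `C²` on the open ball the Hessian `∇²f` fails to be positive definite at some
point of the open ball. -/
theorem result (n : ℕ) (hn : 3 ≤ n) (ε : ℝ) (hε : 0 < ε) :
    ∃ (R : ℝ) (g : EuclideanSpace ℝ (Fin n) →
        EuclideanSpace ℝ (Fin n) →L[ℝ] EuclideanSpace ℝ (Fin n) →L[ℝ] ℝ),
      1 < R ∧ R < 1 + ε ∧ (∀ x v, |g x v v - ‖v‖ ^ 2| ≤ ε * ‖v‖ ^ 2) ∧
      IsRiemannianMetric R g ∧ IsSimple R g ∧ Nontrapping R g ∧
      ∀ f : EuclideanSpace ℝ (Fin n) → ℝ, ContDiffOn ℝ 2 f (ball 0 R) →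
        ∃ x ∈ ball (0 : EuclideanSpace ℝ (Fin n)) R, ∃ v, v ≠ 0 ∧ hessian g f x v v ≤ 0 := by
  obtain ⟨R, g, h1, h2, h3, h4, h5, h6, h7⟩ := Lib_MP_a29272_n.main_n n hn ε hε
  exact ⟨R, g, h1, h2, h3, h4, h5, ⟨h5.1, 5, h6⟩, h7⟩

end Pool.Agent.Results.MP_a29272_gt.EveryDimension
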